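import Mathlib
import Pool.Agent.H24.GL.Main

set_option autoImplicit false

/-!
# Pairwise comparable subsets of the cube (MP_62da2d_co)

A power saving for pairwise comparable sets of points of ℤ³, with no constant and for all `N ≥ 1`,
together with a form for sets with different numbers of values in the three coordinates.
-/

namespace Pool.Agent.Results.MP_62da2d_co.PowerSaving

/-- Two points of ℤ³ are comparable if at least two coordinates of their difference are strictly
positive, or at least two are strictly negative. -/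
def Comparable (s t : Fin 3 → ℤ) : Prop :=
  2 ≤ (Finset.univ.filter fun i : Fin 3 => 0 < (s - t) i).card ∨
    2 ≤ (Finset.univ.filter fun i : Fin 3 => (s - t) i < 0).card

/-- Every two distinct points of `S` are comparable. -/
def PairwiseComparable (S : Finset (Fin 3 → ℤ)) : Prop :=
  ∀ s ∈ S, ∀ t ∈ S, s ≠ t → Comparable s t

/-- The cube `[N]³`, where `[N] = {1, …, N}`. -/
noncomputable def cube (N : ℕ) : Finset (Fin 3 → ℤ) := Fintype.piFinset fun _ => Finset.Icc 1 (N : ℤ)

/-- The number of values that the coordinate `i` takes on `S`. -/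
def values (S : Finset (Fin 3 → ℤ)) (i : Fin 3) : ℕ := (S.image fun s => s i).card

/-- The six ways in which two points can be comparable. -/
theorem comp_cases {s t : Fin 3 → ℤ} (h : Comparable s t) :
    (t 0 < s 0 ∧ t 1 < s 1) ∨ (t 0 < s 0 ∧ t 2 < s 2) ∨ (t 1 < s 1 ∧ t 2 < s 2) ∨
      (s 0 < t 0 ∧ s 1 < t 1) ∨ (s 0 < t 0 ∧ s 2 < t 2) ∨ (s 1 < t 1 ∧ s 2 < t 2) := by
  have e1 : (Finset.univ.filter fun i : Fin 3 => 0 < (s - t) i).card =
      (if 0 < (s - t) 0 then 1 else 0) + (if 0 < (s - t) 1 then 1 else 0) +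
        (if 0 < (s - t) 2 then 1 else 0) := by
    rw [Finset.card_filter, Fin.sum_univ_three]
  have e2 : (Finset.univ.filter fun i : Fin 3 => (s - t) i < 0).card =
      (if (s - t) 0 < 0 then 1 else 0) + (if (s - t) 1 < 0 then 1 else 0) +
        (if (s - t) 2 < 0 then 1 else 0) := by
    rw [Finset.card_filter, Fin.sum_univ_three]
  unfold Comparable at h
  rw [e1, e2] at h
  simp only [Pi.sub_apply] at h
  split_ifs at h <;> omega

/-- The box form. -/
theorem box {σ : ℝ} (hσ : ∀ (ι : Type) (X Y Z : ι → ℕ) (S : Finset ι),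
      Pool.Agent.H24.GL.CS S X Y Z → (S.card : ℝ) ≤
        ((Pool.Agent.H24.GL.nv S X : ℝ) * Pool.Agent.H24.GL.nv S Y *
          Pool.Agent.H24.GL.nv S Z) ^ ((2 - σ) / 3))
    (S : Finset (Fin 3 → ℤ)) (hS : PairwiseComparable S) :
    (S.card : ℝ) ≤ ((values S 0 * values S 1 * values S 2 : ℕ) : ℝ) ^ ((2 - σ) / 3) := by
  classical
  -- a lower bound of all coordinates
  obtain ⟨m, hm⟩ : ∃ m : ℤ, ∀ s ∈ S, ∀ i, m ≤ s i := by
    obtain ⟨m, hm⟩ := (S.biUnion fun s => Finset.univ.image fun i => s i).finite_toSet.bddBelow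
    refine ⟨m, fun s hs i => hm ?_⟩
    exact Finset.mem_coe.2 (Finset.mem_biUnion.2 ⟨s, hs, Finset.mem_image.2 ⟨i, Finset.mem_univ _, rfl⟩⟩)
  let X : Fin 3 → (Fin 3 → ℤ) → ℕ := fun i s => (s i - m).toNat
  have hlt : ∀ s ∈ S, ∀ t ∈ S, ∀ i, s i < t i → X i s < X i t := by
    intro s hs t ht i h
    have h1 := hm s hs i
    have h2 := hm t ht i
    change (s i - m).toNat < (t i - m).toNat
    omega
  have heq : ∀ s ∈ S, ∀ t ∈ S, ∀ i, X i s = X i t → s i = t i := by
    intro s hs t ht i h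
    have h1 := hm s hs i
    have h2 := hm t ht i
    change (s i - m).toNat = (t i - m).toNat at h
    omega
  have hCS : Pool.Agent.H24.GL.CS S (X 0) (X 1) (X 2) := by
    refine ⟨?_, ?_, ?_⟩
    · intro s hs t ht hst h
      have h0 := heq s hs t ht 0 h
      have := comp_cases (hS s hs t ht hst)
      have h3 : (s 1 < t 1 ∧ s 2 < t 2) ∨ (t 1 < s 1 ∧ t 2 < s 2) := by omega
      exact h3.imp (fun h => ⟨hlt s hs t ht _ h.1, hlt s hs t ht _ h.2⟩)
        (fun h => ⟨hlt t ht s hs _ h.1, hlt t ht s hs _ h.2⟩)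
    · intro s hs t ht hst h
      have h0 := heq s hs t ht 1 h
      have := comp_cases (hS s hs t ht hst)
      have h3 : (s 2 < t 2 ∧ s 0 < t 0) ∨ (t 2 < s 2 ∧ t 0 < s 0) := by omega
      exact h3.imp (fun h => ⟨hlt s hs t ht _ h.1, hlt s hs t ht _ h.2⟩)
        (fun h => ⟨hlt t ht s hs _ h.1, hlt t ht s hs _ h.2⟩)
    · intro s hs t ht hst h
      have h0 := heq s hs t ht 2 h
      have := comp_cases (hS s hs t ht hst)
      have h3 : (s 0 < t 0 ∧ s 1 < t 1) ∨ (t 0 < s 0 ∧ t 1 < s 1) := by omega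
      exact h3.imp (fun h => ⟨hlt s hs t ht _ h.1, hlt s hs t ht _ h.2⟩)
        (fun h => ⟨hlt t ht s hs _ h.1, hlt t ht s hs _ h.2⟩)
  have hnv : ∀ i, Pool.Agent.H24.GL.nv S (X i) = values S i := by
    intro i
    have h1 : S.image (X i) = (S.image fun s => s i).image (fun z => (z - m).toNat) := by
      rw [Finset.image_image]
      rfl
    unfold Pool.Agent.H24.GL.nv values
    rw [h1]
    apply Finset.card_image_of_injOn
    intro x hx y hy hxy
    obtain ⟨s, hs, rfl⟩ := Finset.mem_image.1 (Finset.mem_coe.1 hx)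
    obtain ⟨t, ht, rfl⟩ := Finset.mem_image.1 (Finset.mem_coe.1 hy)
    exact heq s hs t ht i hxy
  have h := hσ _ _ _ _ S hCS
  rw [hnv 0, hnv 1, hnv 2] at h
  push_cast
  exact h

/-- There is an absolute constant `δ > 0` such that every pairwise comparable set
`S ⊆ {1, …, N}³` has at most `N ^ (2 - δ)` elements, for every `N ≥ 1`; moreover, with the same
`δ`, every finite pairwise comparable set in ℤ³ whose coordinates take `a`, `b`, `c` values has at
most `(a b c) ^ ((2 - δ) / 3)` elements. -/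
theorem result : ∃ δ : ℝ, 0 < δ ∧
    (∀ N : ℕ, 1 ≤ N → ∀ S : Finset (Fin 3 → ℤ), S ⊆ cube N → PairwiseComparable S →
      (S.card : ℝ) ≤ (N : ℝ) ^ (2 - δ)) ∧
    ∀ S : Finset (Fin 3 → ℤ), PairwiseComparable S →
      (S.card : ℝ) ≤ ((values S 0 * values S 1 * values S 2 : ℕ) : ℝ) ^ ((2 - δ) / 3) := by
  obtain ⟨σ, hσ0, hσ1, hmain⟩ := Pool.Agent.H24.GL.main_bound
  refine ⟨σ, hσ0, ?_, fun S hS => box hmain S hS⟩
  intro N hN S hSN hS
  have hv : ∀ i, values S i ≤ N := by
    intro i
    have h1 : (S.image fun s => s i) ⊆ Finset.Icc 1 (N : ℤ) := by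
      intro x hx
      obtain ⟨s, hs, rfl⟩ := Finset.mem_image.1 hx
      exact Fintype.mem_piFinset.1 (hSN hs) i
    have h2 := Finset.card_le_card h1
    rw [Int.card_Icc] at h2
    change (S.image fun s => s i).card ≤ N
    omega
  have hNN : (0 : ℝ) ≤ N := Nat.cast_nonneg N
  calc (S.card : ℝ) ≤ _ := box hmain S hS
    _ ≤ ((N ^ 3 : ℕ) : ℝ) ^ ((2 - σ) / 3) := by
        refine Real.rpow_le_rpow (by positivity) ?_ (by linarith)
        have h3 : values S 0 * values S 1 * values S 2 ≤ N ^ 3 := by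
          calc values S 0 * values S 1 * values S 2 ≤ N * N * N :=
                Nat.mul_le_mul (Nat.mul_le_mul (hv 0) (hv 1)) (hv 2)
            _ = N ^ 3 := by ring
        exact_mod_cast h3
    _ = (N : ℝ) ^ (2 - σ) := by
        rw [Nat.cast_pow, ← Real.rpow_natCast, ← Real.rpow_mul hNN]
        congr 1
        push_cast
        ring

end Pool.Agent.Results.MP_62da2d_co.PowerSaving
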